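import Pool.Agent.H97.PRP.Targets2
import Pool.Agent.H7.HD.Clo
import Pool.Agent.H3.HD.Iter
import Pool.Agent.H45.NF.DW

/-!
# CPH2. One value for sets of arbitrary order type (MP_e37c09_lc)
-/

set_option autoImplicit false

open Ordinal Cardinal Order Set
open scoped ZFSet

universe u

namespace Pool.Agent.H94.PRP

open _root_.HD HD.PRK HD.PRP
open Pool.Agent.H97.PRK (vDel few_vDel)

/-- the splitting points, at the level of sets -/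
def VD (D w a y : ZFSet.{u}) : Prop := y ∈ a ∧ ∃ Y, Y ⊆ a ∧ ZFSet.pair w Y ∈ D ∧
  ∃ Y', Y' ⊆ a ∧ ZFSet.pair w Y' ∈ D ∧ y ∈ Y ∧ y ∉ Y' ∧ ∀ k ∈ y, k ∈ Y ↔ k ∈ Y'

theorem dz_VD (i j k l : ℕ) : DZ.{u} fun v => VD (v i) (v j) (v k) (v l) :=
  (DZ.mem l k).and (DZ.ex (R := fun Y v => Y ⊆ v k ∧ ZFSet.pair (v j) Y ∈ v i ∧
      ∃ Y', Y' ⊆ v k ∧ ZFSet.pair (v j) Y' ∈ v i ∧ v l ∈ Y ∧ v l ∉ Y' ∧
        ∀ k' ∈ v l, k' ∈ Y ↔ k' ∈ Y')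
    ((Loc.sub 0 (k + 1)).dz.and ((loc_pmem (j + 1) 0 (i + 1)).dz.and
      (DZ.ex (R := fun Y' v => Y' ⊆ v (k + 1) ∧ ZFSet.pair (v (j + 1)) Y' ∈ v (i + 1) ∧
          v (l + 1) ∈ v 0 ∧ v (l + 1) ∉ Y' ∧ ∀ k' ∈ v (l + 1), k' ∈ v 0 ↔ k' ∈ Y')
        ((Loc.sub 0 (k + 2)).dz.and ((loc_pmem (j + 2) 0 (i + 2)).dz.and
          ((DZ.mem (l + 2) 1).and ((DZ.mem (l + 2) 0).not.and
            (DZ.allMem (R := fun k' v => k' ∈ v 1 ↔ k' ∈ v 0) (l + 2)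
              ((DZ.mem 0 2).iff (DZ.mem 0 1)))))))))))

/-- the index of `a` in `w`, at the level of sets -/
def NN (w a n : ZFSet.{u}) : Prop :=
  a ∈ w ∧ ∃ s g, (∀ y, y ∈ s ↔ y ∈ w ∧ y ∈ a) ∧ EnZ n s g

theorem dz_NN (i j k : ℕ) : DZ.{u} fun v => NN (v i) (v j) (v k) :=
  (DZ.mem j i).and (DZ.ex (R := fun s v => ∃ g, (∀ y, y ∈ s ↔ y ∈ v i ∧ y ∈ v j) ∧ EnZ (v k) s g)
    (DZ.ex (R := fun g v => (∀ y, y ∈ v 0 ↔ y ∈ v (i + 1) ∧ y ∈ v (j + 1)) ∧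
        EnZ (v (k + 1)) (v 0) g)
      ((DZ.all (R := fun y v => y ∈ v 1 ↔ y ∈ v (i + 2) ∧ y ∈ v (j + 2))
        ((DZ.mem 0 2).iff ((DZ.mem 0 (i + 3)).and (DZ.mem 0 (j + 3))))).and
        (dz_EnZ (k + 2) 1 0))))

/-- `z` is the splitting point with the index `k`, at the level of sets -/
def MM (D w a k z : ZFSet.{u}) : Prop :=
  VD D w a z ∧ ∃ s g, (∀ y, y ∈ s ↔ y ∈ z ∧ VD D w a y) ∧ EnZ k s g

theorem dz_MM (i j k l m : ℕ) : DZ.{u} fun v => MM (v i) (v j) (v k) (v l) (v m) :=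
  (dz_VD i j k m).and (DZ.ex (R := fun s v => ∃ g, (∀ y, y ∈ s ↔ y ∈ v m ∧
      VD (v i) (v j) (v k) y) ∧ EnZ (v l) s g)
    (DZ.ex (R := fun g v => (∀ y, y ∈ v 0 ↔ y ∈ v (m + 1) ∧
        VD (v (i + 1)) (v (j + 1)) (v (k + 1)) y) ∧ EnZ (v (l + 1)) (v 0) g)
      ((DZ.all (R := fun y v => y ∈ v 1 ↔ y ∈ v (m + 2) ∧
          VD (v (i + 2)) (v (j + 2)) (v (k + 2)) y)
        ((DZ.mem 0 2).iff ((DZ.mem 0 (m + 3)).and (dz_VD (i + 3) (j + 3) (k + 3) 0)))).and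
        (dz_EnZ (l + 2) 1 0))))

/-- the definition of the pairs `(w, Y)` -/
def RZ (D S w Y : ZFSet.{u}) : Prop := ZFSet.pair w Y ∈ D ∧ ∃ a, a.IsOrdinal ∧
  (∀ y, y ∈ a ↔ ∃ b ∈ w, y ∈ b) ∧ Y ⊆ a ∧ ∃ n, n.IsOrdinal ∧ NN w a n ∧
    ∀ k z, k.IsOrdinal → MM D w a k z → (z ∈ Y ↔ ZFSet.pair n k ∈ S)

theorem dz_RZ (i j k l : ℕ) : DZ.{u} fun v => RZ (v i) (v j) (v k) (v l) := by
  refine (loc_pmem k l i).dz.and ?_
  refine DZ.ex (R := fun a v => a.IsOrdinal ∧ (∀ y, y ∈ a ↔ ∃ b ∈ v k, y ∈ b) ∧ v l ⊆ a ∧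
    ∃ n, n.IsOrdinal ∧ NN (v k) a n ∧ ∀ k' z, k'.IsOrdinal → MM (v i) (v k) a k' z →
      (z ∈ v l ↔ ZFSet.pair n k' ∈ v j)) ?_
  refine (DZ.ord 0).and (DZ.and ?_ ((Loc.sub (l + 1) 0).dz.and ?_))
  · refine DZ.all (R := fun y v => y ∈ v 0 ↔ ∃ b ∈ v (k + 1), y ∈ b) ?_
    exact (DZ.mem 0 1).iff (DZ.exMem (R := fun b v => v 0 ∈ b) (k + 2) (DZ.mem 1 0))
  · refine DZ.ex (R := fun n v => n.IsOrdinal ∧ NN (v (k + 1)) (v 0) n ∧ ∀ k' z, k'.IsOrdinal →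
      MM (v (i + 1)) (v (k + 1)) (v 0) k' z → (z ∈ v (l + 1) ↔ ZFSet.pair n k' ∈ v (j + 1))) ?_
    refine (DZ.ord 0).and ((dz_NN (k + 2) 1 0).and ?_)
    refine DZ.all (R := fun k' v => ∀ z, k'.IsOrdinal → MM (v (i + 2)) (v (k + 2)) (v 1) k' z →
      (z ∈ v (l + 2) ↔ ZFSet.pair (v 0) k' ∈ v (j + 2))) ?_
    refine DZ.all (R := fun z v => (v 0).IsOrdinal → MM (v (i + 3)) (v (k + 3)) (v 2) (v 0) z →
      (z ∈ v (l + 3) ↔ ZFSet.pair (v 1) (v 0) ∈ v (j + 3))) ?_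
    exact (DZ.ord 1).imp ((dz_MM (i + 4) (k + 4) 3 1 0).imp
      ((DZ.mem 0 (l + 4)).iff (loc_pmem 2 1 (j + 4)).dz))

/-- the possible values at `w` -/
noncomputable def Zw (D w : ZFSet.{u}) (a : Ordinal.{u}) : ZFSet.{u} :=
  ZFSet.sep (fun Y => ZFSet.pair w Y ∈ D) (ZFSet.powerset a.toZFSet)

theorem mem_Zw {D w Y : ZFSet.{u}} {a : Ordinal.{u}} :
    Y ∈ Zw D w a ↔ Y ⊆ a.toZFSet ∧ ZFSet.pair w Y ∈ D := by
  unfold Zw
  rw [ZFSet.mem_sep, ZFSet.mem_powerset]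

theorem VD_iff {D w : ZFSet.{u}} {a i : Ordinal.{u}} :
    VD D w a.toZFSet i.toZFSet ↔ i ∈ vDel a (Zw D w a) := by
  constructor
  · rintro ⟨h1, Y, h2, h3, Y', h4, h5, h6, h7, h8⟩
    exact ⟨toZFSet_mem_toZFSet_iff.1 h1, Y, mem_Zw.2 ⟨h2, h3⟩, Y', mem_Zw.2 ⟨h4, h5⟩, h6, h7, h8⟩
  · rintro ⟨h1, Y, h2, Y', h4, h6, h7, h8⟩
    exact ⟨toZFSet_mem_toZFSet_iff.2 h1, Y, (mem_Zw.1 h2).1, (mem_Zw.1 h2).2, Y',
      (mem_Zw.1 h4).1, (mem_Zw.1 h4).2, h6, h7, h8⟩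

theorem NN_iff {w : ZFSet.{u}} {a n : Ordinal.{u}} :
    NN w a.toZFSet n.toZFSet ↔ nth {b | b.toZFSet ∈ w} n a := by
  rw [nth_iff]
  have h : ∀ s : ZFSet.{u}, (∀ y, y ∈ s ↔ y ∈ w ∧ y ∈ a.toZFSet) ↔
      s = os a {b | b.toZFSet ∈ w} := by
    intro s
    have h1 : ∀ y, (y ∈ w ∧ y ∈ a.toZFSet) ↔ y ∈ os a {b : Ordinal.{u} | b.toZFSet ∈ w} := by
      intro y
      rw [mem_os]
      constructor
      · rintro ⟨h2, h3⟩
        obtain ⟨b, hb, rfl⟩ := mem_toZFSet_iff.1 h3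
        exact ⟨b, hb, h2, rfl⟩
      · rintro ⟨b, hb, h2, rfl⟩
        exact ⟨h2, toZFSet_mem_toZFSet_iff.2 hb⟩
    constructor
    · intro h2
      ext y
      rw [h2 y, h1]
    · rintro rfl y
      rw [h1]
  unfold NN
  refine and_congr Iff.rfl ⟨?_, ?_⟩
  · rintro ⟨s, g, h1, h2⟩
    rw [h] at h1
    exact ⟨g, h1 ▸ h2⟩
  · rintro ⟨g, h2⟩
    exact ⟨_, g, (h _).2 rfl, h2⟩

theorem MM_iff {D w : ZFSet.{u}} {a k z : Ordinal.{u}} :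
    MM D w a.toZFSet k.toZFSet z.toZFSet ↔ nth (vDel a (Zw D w a)) k z := by
  rw [nth_iff]
  have h : ∀ s : ZFSet.{u}, (∀ y, y ∈ s ↔ y ∈ z.toZFSet ∧ VD D w a.toZFSet y) ↔
      s = os z (vDel a (Zw D w a)) := by
    intro s
    have h1 : ∀ y, (y ∈ z.toZFSet ∧ VD D w a.toZFSet y) ↔ y ∈ os z (vDel a (Zw D w a)) := by
      intro y
      rw [mem_os]
      constructor
      · rintro ⟨h3, h2⟩
        obtain ⟨b, hb, rfl⟩ := mem_toZFSet_iff.1 h3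
        exact ⟨b, hb, VD_iff.1 h2, rfl⟩
      · rintro ⟨b, hb, h2, rfl⟩
        exact ⟨toZFSet_mem_toZFSet_iff.2 hb, VD_iff.2 h2⟩
    constructor
    · intro h2
      ext y
      rw [h2 y, h1]
    · rintro rfl y
      rw [h1]
  unfold MM
  refine and_congr VD_iff ⟨?_, ?_⟩
  · rintro ⟨s, g, h1, h2⟩
    rw [h] at h1
    exact ⟨g, h1 ▸ h2⟩
  · rintro ⟨g, h2⟩
    exact ⟨_, g, (h _).2 rfl, h2⟩

theorem nth_congr {X X' : Set Ordinal.{u}} {n z : Ordinal.{u}} (h : ∀ b ≤ z, b ∈ X ↔ b ∈ X') :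
    nth X n z ↔ nth X' n z := by
  have key : ∀ {X X' : Set Ordinal.{u}}, (∀ b ≤ z, b ∈ X ↔ b ∈ X') → nth X n z → nth X' n z := by
    rintro X X' h ⟨h1, g, h2, h3, h4⟩
    exact ⟨(h z le_rfl).1 h1, g, h2, fun x hx => ⟨(h _ (h3 x hx).2.le).1 (h3 x hx).1,
      (h3 x hx).2⟩, fun y hy hyz => h4 y ((h y hyz.le).2 hy) hyz⟩
  exact ⟨key h, key fun b hb => (h b hb).symm⟩

theorem idx_uniq {X : Set Ordinal.{u}} {n n' z : Ordinal.{u}} (h : nth X n z) (h' : nth X n' z) :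
    n = n' := by
  have h9 := (HD.All.vh X).2.1
  rcases lt_trichotomy n n' with h1 | h1 | h1
  · exact absurd ((h9 _ _ _ _ h h').1 h1) (lt_irrefl _)
  · exact h1
  · exact absurd ((h9 _ _ _ _ h' h).1 h1) (lt_irrefl _)

theorem val_uniq {X : Set Ordinal.{u}} {n z z' : Ordinal.{u}} (h : nth X n z) (h' : nth X n z') :
    z = z' := Pool.Agent.H17.HD.XK.nth_uniq HD.All.vh h h'

/-- two subsets of `a` with the same traces are equal -/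
theorem eq_of_traces {D w Y Y' : ZFSet.{u}} {a : Ordinal.{u}} (hY : Y ∈ Zw D w a)
    (hY' : Y' ∈ Zw D w a)
    (h : ∀ k z, nth (vDel a (Zw D w a)) k z → (z.toZFSet ∈ Y ↔ z.toZFSet ∈ Y')) : Y = Y' := by
  by_contra hne
  have h6 := (mem_Zw.1 hY).1
  have h6' := (mem_Zw.1 hY').1
  have hex : ∃ i : Ordinal.{u}, ¬ (i.toZFSet ∈ Y ↔ i.toZFSet ∈ Y') := by
    by_contra hcon
    push Not at hcon
    apply hne
    ext z
    constructor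
    · intro hz
      obtain ⟨i, -, rfl⟩ := mem_toZFSet_iff.1 (h6 hz)
      exact (hcon i).1 hz
    · intro hz
      obtain ⟨i, -, rfl⟩ := mem_toZFSet_iff.1 (h6' hz)
      exact (hcon i).2 hz
  obtain ⟨i, hi, hmin⟩ := WellFounded.has_min
    (r := ((· < ·) : Ordinal.{u} → _ → Prop)) Ordinal.lt_wf
    {i | ¬ (i.toZFSet ∈ Y ↔ i.toZFSet ∈ Y')} hex
  have hmin' : ∀ k ∈ i.toZFSet, k ∈ Y ↔ k ∈ Y' := by
    intro k hk
    obtain ⟨k, hk', rfl⟩ := mem_toZFSet_iff.1 hk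
    by_contra hcon
    exact hmin k hcon hk'
  have hi' : ¬ (i.toZFSet ∈ Y ↔ i.toZFSet ∈ Y') := hi
  have hiD : i ∈ vDel a (Zw D w a) := by
    by_cases hv : i.toZFSet ∈ Y
    · exact ⟨toZFSet_mem_toZFSet_iff.1 (h6 hv), Y, hY, Y', hY', hv,
        fun h => hi' ⟨fun _ => h, fun _ => hv⟩, hmin'⟩
    · have hv2 : i.toZFSet ∈ Y' := by
        by_contra hcon
        exact hi' ⟨fun h => absurd h hv, fun h => absurd h hcon⟩
      exact ⟨toZFSet_mem_toZFSet_iff.1 (h6' hv2), Y', hY', Y, hY, hv2, hv,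
        fun k hk => (hmin' k hk).symm⟩
  obtain ⟨k, -, hk⟩ := (HD.All.vh (vDel a (Zw D w a))).1 i hiD
  exact hi' (h k i hk)

/-- the union of `x ∩ (a + 1)` -/
theorem union_init {x : ZFSet.{u}} {a : Ordinal.{u}} (ha : a.toZFSet ∈ x) (y : ZFSet.{u}) :
    y ∈ a.toZFSet ↔ ∃ b ∈ x ∩ (succ a).toZFSet, y ∈ b := by
  constructor
  · intro h
    exact ⟨a.toZFSet, ZFSet.mem_inter.2 ⟨ha, toZFSet_mem_toZFSet_iff.2 (lt_succ a)⟩, h⟩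
  · rintro ⟨b, hb, hy⟩
    obtain ⟨-, hb2⟩ := ZFSet.mem_inter.1 hb
    obtain ⟨b, hb3, rfl⟩ := mem_toZFSet_iff.1 hb2
    obtain ⟨y, hy2, rfl⟩ := mem_toZFSet_iff.1 hy
    exact toZFSet_mem_toZFSet_iff.2 (hy2.trans_le (lt_succ_iff.1 hb3))

theorem pf_CPH2 : T_CPH2.{u} := by
  intro δ hδ hV κ x X D hxκ hx hD hThin hCap
  obtain ⟨C, rfl, hCr, -, hC0⟩ : ∃ D : Cardinal.{u}, δ = D.ord ∧ D.IsRegular ∧
      D.IsStrongLimit ∧ ℵ₀ < D := by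
    obtain ⟨η, -, θ, j, h⟩ := HD.All.xa δ hδ 0
    exact HD.All.xb δ η θ j h
  have hgd : Gd C.ord := by
    refine ⟨(Ordinal.one_lt_cof_iff).1 ?_, ?_⟩
    · rw [hCr.cof_ord]
      exact Cardinal.one_lt_aleph0.trans hC0
    · rw [← Cardinal.ord_aleph0]
      exact Cardinal.ord_lt_ord.2 hC0
  obtain ⟨τ, hτ, g, hg⟩ := hx
  -- the indices of the elements of `x`
  have hfx : Few C.ord {b : Ordinal.{u} | b.toZFSet ∈ x} := ⟨τ, hτ, g, fun a ha => hg a ha⟩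
  obtain ⟨τ1, hτ1, -, h1⟩ := Pool.Agent.H17.HD.XK.idx HD.All.vh hfx
  -- the indices of the splitting points
  have hfv : ∀ (w : ZFSet.{u}) (a : Ordinal.{u}), Few C.ord (vDel a (Zw D w a)) := by
    intro w a
    obtain ⟨ν, hν, e, he⟩ := hThin w
    refine few_vDel hC0.le (Cardinal.ord_lt_ord.1 hν) (Z := Zw D w a) ⟨e, fun Y hY => ?_⟩
    exact he Y (mem_Zw.1 hY).2
  have h2 : ∀ a : Ordinal.{u}, ∃ t < C.ord, ∀ k z,
      nth (vDel a (Zw D (x ∩ (succ a).toZFSet) a)) k z → k < t := by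
    intro a
    obtain ⟨t, ht, -, h3⟩ := Pool.Agent.H17.HD.XK.idx HD.All.vh (hfv (x ∩ (succ a).toZFSet) a)
    exact ⟨t, ht, h3⟩
  choose t ht ht2 using h2
  obtain ⟨s0, hs0, hs1⟩ := Pool.Agent.H3.HD.exists_bound (ρ := C.ord) (τ := τ)
    (by rw [hCr.cof_ord]; exact Cardinal.lt_ord.1 hτ) (fun i => t (g i)) (fun i _ => ht _)
  have hs2 : ∀ a : Ordinal.{u}, a.toZFSet ∈ x → ∀ k z,
      nth (vDel a (Zw D (x ∩ (succ a).toZFSet) a)) k z → k < s0 := by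
    intro a ha k z hk
    obtain ⟨i, hi, rfl⟩ := hg a ha
    exact (ht2 _ k z hk).trans_le (hs1 i hi)
  -- the parameter
  set S : ZFSet.{u} := rs τ1 s0 (fun n k => ∃ a : Ordinal.{u}, a.toZFSet ∈ x ∧
    nth {b | b.toZFSet ∈ x} n a ∧
      ∃ z, nth (vDel a (Zw D (x ∩ (succ a).toZFSet) a)) k z ∧ z.toZFSet ∈ X) with hS
  have hSV : S ∈ V_ C.ord := by
    refine mem_V_of_sub (y := ZFSet.prod τ1.toZFSet s0.toZFSet) ?_
      (hgd.prod (Gd.ord.2 hτ1) (Gd.ord.2 hs0))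
    intro z hz
    exact (ZFSet.mem_sep.1 hz).1
  have hSO : OD S := (hV S hSV).od
  -- the set `E`
  have hβ : Gd (κ + ω + ω) := by
    refine ⟨Ordinal.isSuccLimit_add _ Ordinal.isSuccLimit_omega0, ?_⟩
    calc (ω : Ordinal.{u}) ≤ κ + ω := le_add_self
      _ < κ + ω + ω := lt_add_of_pos_right _ Ordinal.omega0_pos
  have hκβ : κ < κ + ω + ω :=
    (lt_add_of_pos_right _ Ordinal.omega0_pos).trans_le le_self_add
  set E : ZFSet.{u} := ZFSet.sep (fun z => ∃ w Y, z = ZFSet.pair w Y ∧ RZ D S w Y)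
    (V_ (κ + ω + ω)) with hE
  have hmem : ∀ w Y : ZFSet.{u}, ZFSet.pair w Y ∈ E → RZ D S w Y := by
    intro w Y h
    rw [hE, ZFSet.mem_sep] at h
    obtain ⟨-, w', Y', h1, h2⟩ := h
    obtain ⟨rfl, rfl⟩ := ZFSet.pair_injective h1
    exact h2
  refine ⟨E, ?_, ?_, ?_⟩
  · refine Pool.Agent.H45.NF.od_sep (NF.od_V _) ?_
    refine DZ.od (R := fun d v => ∃ w Y, v 0 = ZFSet.pair w Y ∧ RZ d S w Y) hD ?_
    refine DZ.od (R := fun s v => ∃ w Y, v 1 = ZFSet.pair w Y ∧ RZ (v 0) s w Y) hSO ?_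
    exact DZ.ex (R := fun w v => ∃ Y, v 2 = ZFSet.pair w Y ∧ RZ (v 1) (v 0) w Y)
      (DZ.ex (R := fun Y v => v 3 = ZFSet.pair (v 0) Y ∧ RZ (v 2) (v 1) (v 0) Y)
        ((loc_pair 4 1 0).dz.and (dz_RZ 3 2 1 0)))
  · intro w Y Y' h h'
    obtain ⟨hp, a, ha, hau, hYa, n, hn, hN, hk⟩ := hmem _ _ h
    obtain ⟨hp', a', ha', hau', hYa', n', hn', hN', hk'⟩ := hmem _ _ h'
    have hae : a' = a := by
      ext y
      rw [hau', hau]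
    subst hae
    obtain ⟨a, rfl⟩ := ord_of ha
    obtain ⟨n, rfl⟩ := ord_of hn
    obtain ⟨n', rfl⟩ := ord_of hn'
    have hnn : n = n' := idx_uniq (NN_iff.1 hN) (NN_iff.1 hN')
    subst hnn
    refine eq_of_traces (mem_Zw.2 ⟨hYa, hp⟩) (mem_Zw.2 ⟨hYa', hp'⟩) fun k z hkz => ?_
    rw [hk _ _ (ZFSet.isOrdinal_toZFSet k) (MM_iff.2 hkz),
      hk' _ _ (ZFSet.isOrdinal_toZFSet k) (MM_iff.2 hkz)]
  · intro a hax
    have haκ : a < κ := toZFSet_mem_toZFSet_iff.1 (hxκ hax)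
    have hD1 := hCap a hax
    rw [hE, ZFSet.mem_sep]
    refine ⟨?_, _, _, rfl, hD1, a.toZFSet, ZFSet.isOrdinal_toZFSet a, union_init hax, ?_, ?_⟩
    · refine hβ.pair (mem_V_of_sub (y := κ.toZFSet) ?_ (Gd.ord.2 hκβ))
        (mem_V_of_sub (y := a.toZFSet) ?_ (Gd.ord.2 (haκ.trans hκβ)))
      · exact fun y hy => hxκ (ZFSet.mem_inter.1 hy).1
      · exact fun y hy => (ZFSet.mem_inter.1 hy).2
    · exact fun y hy => (ZFSet.mem_inter.1 hy).2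
    · have hnx : ∀ n, nth {b : Ordinal.{u} | b.toZFSet ∈ x ∩ (succ a).toZFSet} n a ↔
          nth {b : Ordinal.{u} | b.toZFSet ∈ x} n a := by
        intro n
        refine nth_congr fun b hb => ?_
        show b.toZFSet ∈ x ∩ (succ a).toZFSet ↔ b.toZFSet ∈ x
        rw [ZFSet.mem_inter]
        exact ⟨fun h => h.1, fun h => ⟨h, toZFSet_mem_toZFSet_iff.2 (lt_succ_iff.2 hb)⟩⟩
      obtain ⟨n, -, hn⟩ := (HD.All.vh {b : Ordinal.{u} | b.toZFSet ∈ x}).1 a hax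
      refine ⟨n.toZFSet, ZFSet.isOrdinal_toZFSet n, NN_iff.2 ((hnx n).2 hn), ?_⟩
      intro k z hk hkz
      obtain ⟨k, rfl⟩ := ord_of hk
      obtain ⟨z, hza, rfl⟩ := mem_toZFSet_iff.1 hkz.1.1
      have hkz' := MM_iff.1 hkz
      rw [ZFSet.mem_inter, hS, pair_mem_rs]
      constructor
      · rintro ⟨hzX, -⟩
        exact ⟨h1 n a hn, hs2 a hax k z hkz', a, hax, hn, z, hkz', hzX⟩
      · rintro ⟨-, -, a', ha', hn', z', hz', hzX⟩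
        have h3 : a' = a := val_uniq hn' hn
        subst h3
        have h4 : z' = z := val_uniq hz' hkz'
        subst h4
        exact ⟨hzX, toZFSet_mem_toZFSet_iff.2 hza⟩

end Pool.Agent.H94.PRP
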