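import Pool.Agent.H97.PRP.Targets
import Pool.Agent.H3.HD.DM

/-!
# PF. Definability of the counterexamples (MP_e37c09_lc)
-/

set_option autoImplicit false

open Ordinal Cardinal Order Set
open scoped ZFSet

universe u

namespace Pool.Agent.H94.PRP

open _root_.HD HD.PRK HD.PRP

/-- three values as a sequence -/
def t3 {α : Type*} (a b c : α) : ℕ → α := fun n => if n = 0 then a else if n = 1 then b else c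

theorem ov_t3 (a b c : Ordinal.{u}) : ov (t3 a b c) = t3 a.toZFSet b.toZFSet c.toZFSet := by
  funext n
  unfold ov t3
  split_ifs <;> rfl

/-- being an ordinal -/
def IsO (x : ZFSet.{u}) : Prop := (∀ y ∈ x, ∀ z ∈ y, z ∈ x) ∧ ∀ z ∈ x, ∀ y ∈ z, ∀ w ∈ y, w ∈ z

theorem isO_iff (x : ZFSet.{u}) : IsO x ↔ x.IsOrdinal := by
  rw [ZFSet.isOrdinal_iff_forall_mem_isTransitive]
  rfl

theorem dz_isO (i : ℕ) : DZ.{u} fun v => IsO (v i) :=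
  (DZ.allMem i (DZ.allMem 0 (DZ.mem 0 (i + 2)))).and
    (DZ.allMem i (DZ.allMem 0 (DZ.allMem 0 (DZ.mem 0 2))))

/-- `s` is the section -/
def Sx (Q : (ℕ → ZFSet.{u}) → Prop) (b X x s : ZFSet.{u}) : Prop :=
  ∀ z, z ∈ s ↔ z ∈ b ∧ ∃ y, IsO y ∧ Q (t3 x z y) ∧ y ∈ X

theorem dz_Sx {Q : (ℕ → ZFSet.{u}) → Prop} (hQ : DZ Q) (i j k l : ℕ) :
    DZ.{u} fun v => Sx Q (v i) (v j) (v k) (v l) := by
  refine DZ.all (R := fun z v => z ∈ v l ↔ z ∈ v i ∧ ∃ y, IsO y ∧ Q (t3 (v k) z y) ∧ y ∈ v j) ?_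
  refine (DZ.mem 0 (l + 1)).iff ((DZ.mem 0 (i + 1)).and ?_)
  refine DZ.ex (R := fun y v => IsO y ∧ Q (t3 (v (k + 1)) (v 0) y) ∧ y ∈ v (j + 1)) ?_
  refine (dz_isO 0).and (DZ.and ?_ (DZ.mem 0 (j + 2)))
  exact (hQ.ren (t3 (k + 2) 1 0)).congr fun v => by
    have : t3 (v (k + 2)) (v 1) (v 0) = fun n => v (t3 (k + 2) 1 0 n) := by
      funext n
      unfold t3
      split_ifs <;> rfl
    show Q (t3 (v (k + 2)) (v 1) (v 0)) ↔ _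
    rw [this]

theorem Sx_iff {t : Ordinal.{u} → Ordinal.{u} → Ordinal.{u}} {Q : (ℕ → ZFSet.{u}) → Prop}
    (hQ : ∀ w : ℕ → Ordinal.{u}, w 2 = t (w 0) (w 1) ↔ Q (ov w)) (β ξ : Ordinal.{u})
    (X s : ZFSet.{u}) : Sx Q β.toZFSet X ξ.toZFSet s ↔ s = sx t β X ξ := by
  have h1 : ∀ z, (z ∈ β.toZFSet ∧ ∃ y, IsO y ∧ Q (t3 ξ.toZFSet z y) ∧ y ∈ X) ↔
      z ∈ sx t β X ξ := by
    intro z
    unfold sx
    rw [mem_os]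
    constructor
    · rintro ⟨hz, y, hy, hq, hyX⟩
      obtain ⟨m, hm, rfl⟩ := mem_toZFSet_iff.1 hz
      obtain ⟨c, rfl⟩ := ord_of ((isO_iff y).1 hy)
      rw [← ov_t3, ← hQ] at hq
      have h2 : c = t ξ m := hq
      exact ⟨m, hm, show (t ξ m).toZFSet ∈ X by rw [← h2]; exact hyX, rfl⟩
    · rintro ⟨m, hm, hmX, rfl⟩
      refine ⟨toZFSet_mem_toZFSet_iff.2 hm, (t ξ m).toZFSet,
        (isO_iff _).2 (ZFSet.isOrdinal_toZFSet _), ?_, hmX⟩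
      rw [← ov_t3, ← hQ]
      rfl
  constructor
  · intro h
    ext z
    rw [h z, h1]
  · rintro rfl z
    rw [h1]

/-- `Fun`, at the level of sets -/
theorem dz_fun (i : ℕ) : DZ.{u} fun v => Fun (v i) := by
  refine DZ.all (R := fun w v => ∀ Y Y' : ZFSet.{u}, ZFSet.pair w Y ∈ v i →
    ZFSet.pair w Y' ∈ v i → Y = Y') ?_
  refine DZ.all (R := fun Y v => ∀ Y' : ZFSet.{u}, ZFSet.pair (v 0) Y ∈ v (i + 1) →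
    ZFSet.pair (v 0) Y' ∈ v (i + 1) → Y = Y') ?_
  refine DZ.all (R := fun Y' v => ZFSet.pair (v 1) (v 0) ∈ v (i + 2) →
    ZFSet.pair (v 1) Y' ∈ v (i + 2) → v 0 = Y') ?_
  exact (loc_pmem 2 1 (i + 3)).dz.imp ((loc_pmem 2 0 (i + 3)).dz.imp (DZ.eq 1 0))

/-- the counterexamples, at the level of sets -/
def BZ (Q : (ℕ → ZFSet.{u}) → Prop) (k x X : ZFSet.{u}) : Prop :=
  ∃ b ∈ k, (∀ a ∈ x, a ∈ b) ∧ (∀ a ∈ b, ∃ c ∈ x, a ∈ c) ∧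
    (∀ ξ ∈ b, ∀ s, Sx Q b X ξ s → HOD s) ∧
    ¬ ∃ G, HOD G ∧ Fun G ∧ ∀ ξ ∈ b, ∃ η ∈ b, ∃ s, Sx Q b X ξ s ∧ ZFSet.pair η s ∈ G

theorem dz_BZ {Q : (ℕ → ZFSet.{u}) → Prop} (hQ : DZ Q) (κ : Ordinal.{u}) :
    DZ.{u} fun v => BZ Q κ.toZFSet (v 0) (v 1) := by
  refine DZ.sub (R := fun k v => BZ Q k (v 0) (v 1)) (DZ.eqOrd κ 0) ?_
  refine DZ.exMem (R := fun b v => (∀ a ∈ v 1, a ∈ b) ∧ (∀ a ∈ b, ∃ c ∈ v 1, a ∈ c) ∧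
    (∀ ξ ∈ b, ∀ s, Sx Q b (v 2) ξ s → HOD s) ∧
    ¬ ∃ G, HOD G ∧ Fun G ∧ ∀ ξ ∈ b, ∃ η ∈ b, ∃ s, Sx Q b (v 2) ξ s ∧ ZFSet.pair η s ∈ G) 0 ?_
  refine DZ.and ?_ (DZ.and ?_ (DZ.and ?_ (DZ.not ?_)))
  · exact DZ.allMem (R := fun a v => a ∈ v 0) 2 (DZ.mem 0 1)
  · exact DZ.allMem (R := fun a v => ∃ c ∈ v 2, a ∈ c) 0
      (DZ.exMem (R := fun c v => v 0 ∈ c) 3 (DZ.mem 1 0))
  · exact DZ.allMem (R := fun ξ v => ∀ s, Sx Q (v 0) (v 3) ξ s → HOD s) 0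
      (DZ.all (R := fun s v => Sx Q (v 1) (v 4) (v 0) s → HOD s)
        ((dz_Sx hQ 2 5 1 0).imp (Pool.Agent.H3.HD.DM.dz_hod 0)))
  · refine DZ.ex (R := fun G v => HOD G ∧ Fun G ∧ ∀ ξ ∈ v 0, ∃ η ∈ v 0,
      ∃ s, Sx Q (v 0) (v 3) ξ s ∧ ZFSet.pair η s ∈ G) ?_
    refine (Pool.Agent.H3.HD.DM.dz_hod 0).and ((dz_fun 0).and ?_)
    exact DZ.allMem (R := fun ξ v => ∃ η ∈ v 1, ∃ s, Sx Q (v 1) (v 4) ξ s ∧
        ZFSet.pair η s ∈ v 0) 1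
      (DZ.exMem (R := fun η v => ∃ s, Sx Q (v 2) (v 5) (v 0) s ∧ ZFSet.pair η s ∈ v 1) 2
        (DZ.ex (R := fun s v => Sx Q (v 3) (v 6) (v 1) s ∧ ZFSet.pair (v 0) s ∈ v 2)
          ((dz_Sx hQ 4 7 2 0).and (loc_pmem 1 0 3).dz)))

theorem pf_PF : T_PF.{u} := by
  intro t ht κ
  obtain ⟨Q, hQ, hq⟩ := ht
  refine (dz_BZ hQ κ).congr fun v => ?_
  unfold BadF BZ
  constructor
  · rintro ⟨β, hβ, h1, h2, h3, h4⟩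
    refine ⟨β.toZFSet, toZFSet_mem_toZFSet_iff.2 hβ, fun a ha => h1 ha, ?_, ?_, ?_⟩
    · intro a ha
      obtain ⟨a, ha', rfl⟩ := mem_toZFSet_iff.1 ha
      obtain ⟨c, hc, hcx⟩ := h2 a ha'
      exact ⟨c.toZFSet, hcx, toZFSet_mem_toZFSet_iff.2 hc⟩
    · intro ξ hξ s hs
      obtain ⟨ξ, hξ', rfl⟩ := mem_toZFSet_iff.1 hξ
      rw [Sx_iff hq] at hs
      rw [hs]
      exact h3 ξ hξ'
    · rintro ⟨G, hG, hF, h5⟩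
      refine h4 ⟨G, hG, hF, fun ξ hξ => ?_⟩
      obtain ⟨η, hη, s, hs, hp⟩ := h5 _ (toZFSet_mem_toZFSet_iff.2 hξ)
      obtain ⟨η, hη', rfl⟩ := mem_toZFSet_iff.1 hη
      rw [Sx_iff hq] at hs
      rw [hs] at hp
      exact ⟨η, hη', hp⟩
  · rintro ⟨b, hb, h1, h2, h3, h4⟩
    obtain ⟨β, hβ, rfl⟩ := mem_toZFSet_iff.1 hb
    refine ⟨β, hβ, fun a ha => h1 a ha, ?_, ?_, ?_⟩
    · intro a ha
      obtain ⟨c, hc, hac⟩ := h2 _ (toZFSet_mem_toZFSet_iff.2 ha)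
      obtain ⟨c, -, rfl⟩ := mem_toZFSet_iff.1 (h1 c hc)
      exact ⟨c, toZFSet_mem_toZFSet_iff.1 hac, hc⟩
    · intro ξ hξ
      exact h3 _ (toZFSet_mem_toZFSet_iff.2 hξ) _ ((Sx_iff hq _ _ _ _).2 rfl)
    · rintro ⟨G, hG, hF, h5⟩
      refine h4 ⟨G, hG, hF, fun ξ hξ => ?_⟩
      obtain ⟨ξ, hξ', rfl⟩ := mem_toZFSet_iff.1 hξ
      obtain ⟨η, hη, hp⟩ := h5 ξ hξ'
      exact ⟨η.toZFSet, toZFSet_mem_toZFSet_iff.2 hη, _, (Sx_iff hq _ _ _ _).2 rfl, hp⟩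

end Pool.Agent.H94.PRP
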